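import Mathlib

set_option autoImplicit false

/-!
# A partial fraction identity
-/

namespace Pool.Agent.TH402.Trap

open Finset Polynomial

theorem lag {ι : Type*} [DecidableEq ι] (s : Finset ι) (a b : ι → ℚ) (ha : Set.InjOn a s) :
    ∑ i ∈ s, (∏ j ∈ s, (a i - b j)) / ∏ j ∈ s.erase i, (a i - a j)
      = ∑ i ∈ s, (a i - b i) := by
  classical
  rcases s.eq_empty_or_nonempty with rfl | hs
  · simp
  have hcard : 0 < #s := hs.card_pos
  set P : ℚ[X] := ∏ j ∈ s, (X - C (b j)) - ∏ j ∈ s, (X - C (a j)) with hP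
  have h1 : (∏ j ∈ s, (X - C (b j))).degree = ((#s : ℕ) : WithBot ℕ) := by
    have := Lagrange.degree_nodal (s := s) (v := b)
    rwa [Lagrange.nodal_eq] at this
  have h2 : (∏ j ∈ s, (X - C (a j))).degree = ((#s : ℕ) : WithBot ℕ) := by
    have := Lagrange.degree_nodal (s := s) (v := a)
    rwa [Lagrange.nodal_eq] at this
  have hdeg : P.degree < ((#s : ℕ) : WithBot ℕ) := by
    rw [← h1]
    apply Polynomial.degree_sub_lt_left
    · rw [h1, h2]
    · intro h
      rw [h] at h1
      simp at h1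
    · have m1 := Lagrange.nodal_monic (s := s) (v := b)
      have m2 := Lagrange.nodal_monic (s := s) (v := a)
      rw [Lagrange.nodal_eq] at m1 m2
      rw [m1.leadingCoeff, m2.leadingCoeff]
  have h3 := Lagrange.coeff_eq_sum ha hdeg
  have h4 : P.coeff (#s - 1) = ∑ i ∈ s, (a i - b i) := by
    rw [hP, coeff_sub, Polynomial.prod_X_sub_C_coeff_card_pred s b hcard,
      Polynomial.prod_X_sub_C_coeff_card_pred s a hcard, Finset.sum_sub_distrib]
    ring
  rw [← h4, h3]
  refine Finset.sum_congr rfl fun i hi => ?_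
  congr 1
  rw [hP, eval_sub, eval_prod, eval_prod]
  have : ∏ j ∈ s, eval (a i) (X - C (a j)) = 0 := Finset.prod_eq_zero hi (by simp)
  rw [this, sub_zero]
  simp

theorem key {ι : Type*} [DecidableEq ι] (s : Finset ι) (x : ι → ℚ) (hx : ∀ i ∈ s, 1 ≤ x i)
    (hinj : Set.InjOn x s) :
    ∑ i ∈ s, x i * ∏ j ∈ s.erase i,
        (((x i - x j - 1) * (x i + x j)) / ((x i - x j) * (x i + x j - 1)))
      = ∑ i ∈ s, x i := by
  have ha : Set.InjOn (fun i => x i * (x i - 1)) s := by
    intro i hi j hj h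
    apply hinj hi hj
    simp only at h
    have h1 := hx i hi
    have h2 := hx j hj
    have h3 : (x i - x j) * (x i + x j - 1) = 0 := by linarith
    rcases mul_eq_zero.1 h3 with h4 | h4
    · linarith
    · linarith
  have h := lag s (fun i => x i * (x i - 1)) (fun i => x i * (x i + 1)) ha
  have e1 : ∑ i ∈ s, (x i * (x i - 1) - x i * (x i + 1)) = -2 * ∑ i ∈ s, x i := by
    rw [Finset.mul_sum]
    exact Finset.sum_congr rfl fun i _ => by ring
  have e2 : ∑ i ∈ s, (∏ j ∈ s, (x i * (x i - 1) - x j * (x j + 1))) /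
      ∏ j ∈ s.erase i, (x i * (x i - 1) - x j * (x j - 1)) =
      -2 * ∑ i ∈ s, x i * ∏ j ∈ s.erase i,
        (((x i - x j - 1) * (x i + x j)) / ((x i - x j) * (x i + x j - 1))) := by
    rw [Finset.mul_sum]
    refine Finset.sum_congr rfl fun i hi => ?_
    rw [← Finset.mul_prod_erase s _ hi, Finset.prod_div_distrib]
    have e3 : ∏ j ∈ s.erase i, (x i * (x i - 1) - x j * (x j + 1))
        = ∏ j ∈ s.erase i, ((x i - x j - 1) * (x i + x j)) :=
      Finset.prod_congr rfl fun j _ => by ring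
    have e4 : ∏ j ∈ s.erase i, (x i * (x i - 1) - x j * (x j - 1))
        = ∏ j ∈ s.erase i, ((x i - x j) * (x i + x j - 1)) :=
      Finset.prod_congr rfl fun j _ => by ring
    rw [e3, e4]
    ring
  rw [e1, e2] at h
  linarith

end Pool.Agent.TH402.Trap
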