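import Mathlib
import Pool.Agent.TH402.Trap.Lag

set_option autoImplicit false

/-!
# The product formula for the number of standard shifted tableaux: recursion
-/

namespace Pool.Agent.TH402.Trap

open Finset

/-- strict partitions, as functions of the row index -/
def St (x : ℕ → ℕ) : Prop := ∀ i, x (i + 1) = 0 ∨ x (i + 1) < x i

/-- add a box in row `i` -/
def up (x : ℕ → ℕ) (i : ℕ) : ℕ → ℕ := Function.update x i (x i + 1)

/-- remove a box in row `i` -/
def dn (x : ℕ → ℕ) (i : ℕ) : ℕ → ℕ := Function.update x i (x i - 1)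

noncomputable def rho (a b : ℕ) : ℚ := if a + b = 0 then 1 else ((a : ℚ) - b) / (a + b)

noncomputable def F (i j a b : ℕ) : ℚ := if i < j then rho a b else 1

/-- Schur's product -/
noncomputable def gp (M : ℕ) (x : ℕ → ℕ) : ℚ :=
  ((∑ i ∈ range M, x i).factorial : ℚ) * (∏ i ∈ range M, ((x i).factorial : ℚ)⁻¹) *
    ∏ i ∈ range M, ∏ j ∈ range M, F i j (x i) (x j)

theorem rho_zero_right (a : ℕ) : rho a 0 = 1 := by
  unfold rho
  split_ifs with h
  · rfl
  · have : (a : ℚ) ≠ 0 := by
      have : a ≠ 0 := by omega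
      exact_mod_cast this
    push_cast
    rw [sub_zero, add_zero, div_self this]

theorem St.anti {x : ℕ → ℕ} (h : St x) {i j : ℕ} (hij : i < j) : x j = 0 ∨ x j < x i := by
  induction j, hij using Nat.le_induction with
  | base => exact h i
  | succ k hk ih =>
    rcases h k with h1 | h1
    · exact Or.inl h1
    · rcases ih with h2 | h2
      · omega
      · right; omega

theorem prod_split (R : Finset ℕ) (j : ℕ) (hj : j ∈ R) (x : ℕ → ℕ) (y : ℕ) :
    ∏ i ∈ R, ∏ i' ∈ R, F i i' (Function.update x j y i) (Function.update x j y i')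
      = (∏ i ∈ R.erase j, ∏ i' ∈ R.erase j, F i i' (x i) (x i')) *
        ∏ i ∈ R.erase j, (F i j (x i) y * F j i y (x i)) := by
  have hne : ∀ i ∈ R.erase j, Function.update x j y i = x i := fun i hi =>
    Function.update_of_ne (Finset.ne_of_mem_erase hi) _ _
  rw [← Finset.mul_prod_erase R _ hj]
  have h1 : ∏ i' ∈ R, F j i' (Function.update x j y j) (Function.update x j y i')
      = ∏ i' ∈ R.erase j, F j i' y (x i') := by
    rw [← Finset.mul_prod_erase R _ hj]
    have : F j j (Function.update x j y j) (Function.update x j y j) = 1 := by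
      unfold F; simp
    rw [this, one_mul]
    refine Finset.prod_congr rfl fun i hi => ?_
    rw [hne i hi, Function.update_self]
  have h2 : ∏ i ∈ R.erase j, ∏ i' ∈ R, F i i' (Function.update x j y i)
      (Function.update x j y i')
      = ∏ i ∈ R.erase j, (F i j (x i) y * ∏ i' ∈ R.erase j, F i i' (x i) (x i')) := by
    refine Finset.prod_congr rfl fun i hi => ?_
    rw [← Finset.mul_prod_erase R _ hj, hne i hi, Function.update_self]
    congr 1
    refine Finset.prod_congr rfl fun i' hi' => ?_
    rw [hne i' hi']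
  rw [h1, h2, Finset.prod_mul_distrib, Finset.prod_mul_distrib]
  ring

theorem prod_self (R : Finset ℕ) (j : ℕ) (hj : j ∈ R) (x : ℕ → ℕ) :
    ∏ i ∈ R, ∏ i' ∈ R, F i i' (x i) (x i')
      = (∏ i ∈ R.erase j, ∏ i' ∈ R.erase j, F i i' (x i) (x i')) *
        ∏ i ∈ R.erase j, (F i j (x i) (x j) * F j i (x j) (x i)) := by
  have := prod_split R j hj x (x j)
  rwa [Function.update_eq_self] at this

theorem ratio {x : ℕ → ℕ} (h : St x) {i j : ℕ} (hij : i ≠ j) (hj : 0 < x j) (hi : 0 < x i) :
    F i j (x i) (x j - 1) * F j i (x j - 1) (x i) =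
      (F i j (x i) (x j) * F j i (x j) (x i)) *
      ((((x j : ℚ) - x i - 1) * ((x j : ℚ) + x i)) /
        (((x j : ℚ) - x i) * ((x j : ℚ) + x i - 1))) := by
  have hc : ((x j - 1 : ℕ) : ℚ) = (x j : ℚ) - 1 := by
    rw [Nat.cast_sub hj]; simp
  have h1 : (1 : ℚ) ≤ x i := by exact_mod_cast hi
  have h2 : (1 : ℚ) ≤ x j := by exact_mod_cast hj
  rcases lt_or_gt_of_ne hij with hlt | hgt
  · have h3 : x j < x i := by
      rcases h.anti hlt with h3 | h3
      · omega
      · exact h3
    have h3' : (x j : ℚ) + 1 ≤ x i := by exact_mod_cast h3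
    have e1 : F i j (x i) (x j - 1) = ((x i : ℚ) - (x j - 1)) / (x i + (x j - 1)) := by
      unfold F rho
      rw [if_pos hlt, if_neg (by omega), hc]
    have e2 : F j i (x j - 1) (x i) = 1 := by
      unfold F; rw [if_neg (by omega)]
    have e3 : F i j (x i) (x j) = ((x i : ℚ) - x j) / (x i + x j) := by
      unfold F rho
      rw [if_pos hlt, if_neg (by omega)]
    have e4 : F j i (x j) (x i) = 1 := by
      unfold F; rw [if_neg (by omega)]
    rw [e1, e2, e3, e4]
    have n1 : (x i : ℚ) + (x j - 1) ≠ 0 := by linarith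
    have n2 : (x i : ℚ) + x j ≠ 0 := by linarith
    have n3 : (x j : ℚ) - x i ≠ 0 := by linarith
    have n4 : (x j : ℚ) + x i - 1 ≠ 0 := by linarith
    field_simp
    ring
  · have h3 : x i < x j := by
      rcases h.anti hgt with h3 | h3
      · omega
      · exact h3
    have h3' : (x i : ℚ) + 1 ≤ x j := by exact_mod_cast h3
    have e1 : F i j (x i) (x j - 1) = 1 := by
      unfold F; rw [if_neg (by omega)]
    have e2 : F j i (x j - 1) (x i) = (((x j : ℚ) - 1) - x i) / ((x j - 1) + x i) := by
      unfold F rho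
      rw [if_pos hgt, if_neg (by omega), hc]
    have e3 : F i j (x i) (x j) = 1 := by
      unfold F; rw [if_neg (by omega)]
    have e4 : F j i (x j) (x i) = ((x j : ℚ) - x i) / (x j + x i) := by
      unfold F rho
      rw [if_pos hgt, if_neg (by omega)]
    rw [e1, e2, e3, e4]
    have n1 : (x j : ℚ) - 1 + x i ≠ 0 := by linarith
    have n2 : (x j : ℚ) + x i ≠ 0 := by linarith
    have n3 : (x j : ℚ) - x i ≠ 0 := by linarith
    have n4 : (x j : ℚ) + x i - 1 ≠ 0 := by linarith
    field_simp
    ring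

theorem ratio_zero {x : ℕ → ℕ} (h : St x) {i j : ℕ} (hij : i ≠ j) (hj : 0 < x j) (hi : x i = 0)
    (y : ℕ) : F i j (x i) y * F j i y (x i) = 1 := by
  rcases lt_or_gt_of_ne hij with hlt | hgt
  · exfalso
    rcases h.anti hlt with h3 | h3 <;> omega
  · unfold F
    rw [if_neg (by omega), if_pos hgt, hi, rho_zero_right, one_mul]

/-- the ratio of two consecutive values -/
theorem gp_dn (M : ℕ) {x : ℕ → ℕ} (h : St x) {j : ℕ} (hjM : j ∈ range M) (hj : 0 < x j) :
    gp M (dn x j) * (∑ i ∈ range M, x i : ℕ) = gp M x * (x j * ∏ i ∈ ((range M).filter (fun i => 0 < x i)).erase j,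
      ((((x j : ℚ) - x i - 1) * ((x j : ℚ) + x i)) /
        (((x j : ℚ) - x i) * ((x j : ℚ) + x i - 1)))) := by
  set R := range M with hR
  set T := ∑ i ∈ R, x i with hT
  have hT' : T = x j + ∑ i ∈ R.erase j, x i := (Finset.add_sum_erase R x hjM).symm
  have hsum : ∑ i ∈ R, dn x j i = T - 1 := by
    rw [← Finset.add_sum_erase R _ hjM]
    have h1 : ∑ i ∈ R.erase j, dn x j i = ∑ i ∈ R.erase j, x i :=
      Finset.sum_congr rfl fun i hi => Function.update_of_ne (Finset.ne_of_mem_erase hi) _ _
    have h2 : dn x j j = x j - 1 := Function.update_self _ _ _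
    rw [h1, h2, hT']
    omega
  have hT0 : 0 < T := by omega
  have hfac : ((T - 1).factorial : ℚ) * T = T.factorial := by
    have : T.factorial = T * (T - 1).factorial := by
      obtain ⟨k, hk⟩ : ∃ k, T = k + 1 := ⟨T - 1, by omega⟩
      rw [hk, Nat.factorial_succ]
      simp
    rw [this]
    push_cast
    ring
  have hfac2 : ∏ i ∈ R, ((dn x j i).factorial : ℚ)⁻¹ = (∏ i ∈ R, ((x i).factorial : ℚ)⁻¹) * x j := by
    rw [← Finset.mul_prod_erase R _ hjM, ← Finset.mul_prod_erase R (fun i => ((x i).factorial : ℚ)⁻¹) hjM]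
    have h1 : ∏ i ∈ R.erase j, ((dn x j i).factorial : ℚ)⁻¹ = ∏ i ∈ R.erase j, ((x i).factorial : ℚ)⁻¹ :=
      Finset.prod_congr rfl fun i hi => by
        rw [show dn x j i = x i from Function.update_of_ne (Finset.ne_of_mem_erase hi) _ _]
    have h2 : dn x j j = x j - 1 := Function.update_self _ _ _
    rw [h1, h2]
    have h3 : ((x j - 1).factorial : ℚ)⁻¹ = ((x j).factorial : ℚ)⁻¹ * x j := by
      obtain ⟨k, hk⟩ : ∃ k, x j = k + 1 := ⟨x j - 1, by omega⟩
      have : (k.factorial : ℚ) ≠ 0 := by exact_mod_cast k.factorial_ne_zero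
      have h4 : ((k : ℚ) + 1) ≠ 0 := by positivity
      rw [hk, Nat.add_sub_cancel, Nat.factorial_succ]
      push_cast
      field_simp
    rw [h3]
    ring
  have hprod : ∏ i ∈ R, ∏ i' ∈ R, F i i' (dn x j i) (dn x j i') =
      (∏ i ∈ R, ∏ i' ∈ R, F i i' (x i) (x i')) * ∏ i ∈ (R.filter (fun i => 0 < x i)).erase j,
      ((((x j : ℚ) - x i - 1) * ((x j : ℚ) + x i)) /
        (((x j : ℚ) - x i) * ((x j : ℚ) + x i - 1))) := by
    unfold dn
    rw [prod_split R j hjM, prod_self R j hjM, mul_assoc]
    congr 1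
    have hsub : (R.filter (fun i => 0 < x i)).erase j ⊆ R.erase j :=
      Finset.erase_subset_erase _ (Finset.filter_subset _ _)
    rw [← Finset.prod_subset hsub (f := fun i => F i j (x i) (x j - 1) * F j i (x j - 1) (x i)),
      ← Finset.prod_subset hsub (f := fun i => F i j (x i) (x j) * F j i (x j) (x i)),
      ← Finset.prod_mul_distrib]
    · refine Finset.prod_congr rfl fun i hi => ?_
      rw [Finset.mem_erase, Finset.mem_filter] at hi
      exact ratio h hi.1 hj hi.2.2
    · intro i hi hi'
      rw [Finset.mem_erase] at hi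
      rw [Finset.mem_erase, Finset.mem_filter] at hi'
      have : x i = 0 := by
        by_contra hne
        exact hi' ⟨hi.1, hi.2, by omega⟩
      exact ratio_zero h hi.1 hj this _
    · intro i hi hi'
      rw [Finset.mem_erase] at hi
      rw [Finset.mem_erase, Finset.mem_filter] at hi'
      have : x i = 0 := by
        by_contra hne
        exact hi' ⟨hi.1, hi.2, by omega⟩
      exact ratio_zero h hi.1 hj this _
  unfold gp
  rw [hsum, hfac2, hprod]
  rw [← hfac]
  ring

theorem gp_rec (M : ℕ) {x : ℕ → ℕ} (h : St x) (hpos : 0 < ∑ i ∈ range M, x i) :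
    ∑ j ∈ (range M).filter (fun j => 0 < x j), gp M (dn x j) = gp M x := by
  set s := (range M).filter (fun j => 0 < x j) with hs
  have hT : ((∑ i ∈ range M, x i : ℕ) : ℚ) ≠ 0 := by
    have : (∑ i ∈ range M, x i : ℕ) ≠ 0 := by omega
    exact_mod_cast this
  have h1 : (∑ j ∈ s, gp M (dn x j)) * ((∑ i ∈ range M, x i : ℕ) : ℚ)
      = gp M x * ((∑ i ∈ range M, x i : ℕ) : ℚ) := by
    rw [Finset.sum_mul]
    have h2 : ∀ j ∈ s, gp M (dn x j) * ((∑ i ∈ range M, x i : ℕ) : ℚ) =
        gp M x * ((x j : ℚ) * ∏ i ∈ s.erase j, ((((x j : ℚ) - x i - 1) * ((x j : ℚ) + x i)) /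
        (((x j : ℚ) - x i) * ((x j : ℚ) + x i - 1)))) := by
      intro j hj
      rw [hs, Finset.mem_filter] at hj
      exact gp_dn M h hj.1 hj.2
    rw [Finset.sum_congr rfl h2, ← Finset.mul_sum]
    congr 1
    rw [key s (fun i => (x i : ℚ)) ?_ ?_]
    · push_cast
      rw [hs, Finset.sum_filter]
      refine Finset.sum_congr rfl fun i _ => ?_
      split_ifs with h3
      · rfl
      · have : x i = 0 := by omega
        rw [this]; simp
    · intro i hi
      rw [hs, Finset.mem_filter] at hi
      exact_mod_cast hi.2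
    · intro i hi j hj hij
      have hi' := (Finset.mem_filter.1 (Finset.mem_coe.1 hi)).2
      have hj' := (Finset.mem_filter.1 (Finset.mem_coe.1 hj)).2
      have hij' : x i = x j := by
        have h5 : (x i : ℚ) = x j := hij
        exact_mod_cast h5
      by_contra hne
      rcases lt_or_gt_of_ne hne with hlt | hgt
      · rcases h.anti hlt with h3 | h3 <;> omega
      · rcases h.anti hgt with h3 | h3 <;> omega
  exact mul_right_cancel₀ hT h1

/-- the product vanishes when the removal of a box is not allowed -/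
theorem gp_dn_zero (M : ℕ) {x : ℕ → ℕ} (h : St x) (hsupp : ∀ i, M ≤ i → x i = 0) {j : ℕ}
    (hj : 0 < x j) (hn : ¬ St (dn x j)) : gp M (dn x j) = 0 := by
  -- `x (j+1) = x j - 1 > 0`
  have h1 : 0 < x (j + 1) ∧ x (j + 1) = x j - 1 := by
    by_contra hcon
    apply hn
    intro i
    unfold dn
    rcases eq_or_ne (i + 1) j with h2 | h2
    · rw [h2, Function.update_self, Function.update_of_ne (by omega)]
      have := h i
      rw [h2] at this
      omega
    · rw [Function.update_of_ne h2]
      rcases eq_or_ne i j with h3 | h3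
      · rw [h3, Function.update_self]
        have := h j
        omega
      · rw [Function.update_of_ne h3]
        exact h i
  have hjM : j + 1 ∈ range M := by
    rw [Finset.mem_range]
    by_contra hcon
    have := hsupp (j + 1) (by omega)
    omega
  have hjM' : j ∈ range M := by
    rw [Finset.mem_range] at hjM ⊢
    omega
  unfold gp
  have h2 : ∏ i ∈ range M, ∏ i' ∈ range M, F i i' (dn x j i) (dn x j i') = 0 := by
    apply Finset.prod_eq_zero hjM'
    apply Finset.prod_eq_zero hjM
    unfold F rho dn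
    rw [if_pos (by omega), Function.update_self, Function.update_of_ne (by omega), if_neg (by omega),
      ← h1.2, sub_self, zero_div]
  rw [h2, mul_zero]

end Pool.Agent.TH402.Trap
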