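import Mathlib
import Pool.Agent.TH402.Trap.Prod

set_option autoImplicit false

/-!
# Weights on addable and removable boxes
-/

namespace Pool.Agent.TH402.Trap

open Finset
open scoped Classical

/-- the weight of the box added to row `i` (counted from `0`) of size `p` -/
noncomputable def cw (i p : ℕ) : ℚ := if p = 0 then (i : ℚ) / 2 else (2 * (i : ℚ) + p + 1) / 2

/-- the other weight -/
noncomputable def ww (_ p : ℕ) : ℚ := if p = 0 then 1 else 2

/-- box `i` can be removed -/
def Rem (x : ℕ → ℕ) (j : ℕ) : Prop := 0 < x j ∧ St (dn x j)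

theorem St_up_iff {x : ℕ → ℕ} (h : St x) (i : ℕ) : St (up x i) ↔ i = 0 ∨ x i + 1 < x (i - 1) := by
  constructor
  · intro h1
    rcases Nat.eq_zero_or_pos i with h0 | h0
    · exact Or.inl h0
    · right
      have h2 := h1 (i - 1)
      unfold up at h2
      rw [show i - 1 + 1 = i by omega, Function.update_self, Function.update_of_ne (by omega)] at h2
      omega
  · intro h1 k
    unfold up
    rcases eq_or_ne (k + 1) i with h2 | h2
    · rw [h2, Function.update_self, Function.update_of_ne (by omega)]
      rcases h1 with h1 | h1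
      · omega
      · right
        rw [show i - 1 = k by omega] at h1
        exact h1
    · rw [Function.update_of_ne h2]
      rcases eq_or_ne k i with h3 | h3
      · rw [h3, Function.update_self]
        have := h i
        omega
      · rw [Function.update_of_ne h3]
        exact h k

theorem Rem_iff {x : ℕ → ℕ} (h : St x) (j : ℕ) :
    Rem x j ↔ 0 < x j ∧ (x (j + 1) = 0 ∨ x (j + 1) < x j - 1) := by
  unfold Rem
  constructor
  · rintro ⟨h1, h2⟩
    refine ⟨h1, ?_⟩
    have h3 := h2 j
    unfold dn at h3
    rw [Function.update_self, Function.update_of_ne (by omega)] at h3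
    exact h3
  · rintro ⟨h1, h2⟩
    refine ⟨h1, fun k => ?_⟩
    unfold dn
    rcases eq_or_ne (k + 1) j with h3 | h3
    · rw [h3, Function.update_self, Function.update_of_ne (by omega)]
      have := h k
      rw [h3] at this
      omega
    · rw [Function.update_of_ne h3]
      rcases eq_or_ne k j with h4 | h4
      · rw [h4, Function.update_self]
        exact h2
      · rw [Function.update_of_ne h4]
        exact h k

noncomputable def Asum (c : ℕ → ℕ → ℚ) (m : ℕ) (x : ℕ → ℕ) : ℚ :=
  ∑ i ∈ range (m + 1), if St (up x i) then c i (x i) else 0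

noncomputable def Bsum (c : ℕ → ℕ → ℚ) (m : ℕ) (x : ℕ → ℕ) : ℚ :=
  ∑ j ∈ range (m + 1), if Rem x j then c j (x j - 1) else 0

/-- number of removable boxes -/
noncomputable def Dg (m : ℕ) (x : ℕ → ℕ) : ℚ :=
  ∑ j ∈ range (m + 1), if Rem x j then 1 else 0

theorem Asum_eq (c : ℕ → ℕ → ℚ) (m : ℕ) {x : ℕ → ℕ} (h : St x) :
    Asum c m x = c 0 (x 0) + ∑ i ∈ range m, if x (i + 1) + 1 < x i then c (i + 1) (x (i + 1)) else 0 := by
  unfold Asum
  rw [Finset.sum_range_succ', add_comm]
  congr 1
  · rw [if_pos ((St_up_iff h 0).2 (Or.inl rfl))]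
  · refine Finset.sum_congr rfl fun i _ => ?_
    congr 1
    rw [St_up_iff h]
    simp

theorem Bsum_eq (c : ℕ → ℕ → ℚ) (m : ℕ) {x : ℕ → ℕ} (h : St x) (hm : x m = 0) :
    Bsum c m x = ∑ i ∈ range m,
      if 0 < x i ∧ (x (i + 1) = 0 ∨ x (i + 1) < x i - 1) then c i (x i - 1) else 0 := by
  unfold Bsum
  rw [Finset.sum_range_succ, if_neg (by unfold Rem; omega), add_zero]
  refine Finset.sum_congr rfl fun i _ => ?_
  simp only [Rem_iff h]

theorem delta_c (m : ℕ) {x : ℕ → ℕ} (h : St x) (hm : x m = 0) :
    Asum cw m x - Bsum cw m x = Dg m x := by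
  have hD : Dg m x = Bsum (fun _ _ => 1) m x := rfl
  rw [hD, Asum_eq cw m h, Bsum_eq cw m h hm, Bsum_eq _ m h hm, sub_eq_iff_eq_add,
    ← Finset.sum_add_distrib]
  set φ : ℕ → ℚ := fun i => if x i = 0 then 0 else ((x i : ℚ) + i + 1) / 2 with hφ
  have hstep : ∀ i, (if 0 < x i ∧ (x (i + 1) = 0 ∨ x (i + 1) < x i - 1) then (1 : ℚ) else 0) +
      (if 0 < x i ∧ (x (i + 1) = 0 ∨ x (i + 1) < x i - 1) then cw i (x i - 1) else 0) =
      (if x (i + 1) + 1 < x i then cw (i + 1) (x (i + 1)) else 0) + (φ i - φ (i + 1)) := by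
    intro i
    simp only [hφ]
    have hi := h i
    rcases Nat.eq_zero_or_pos (x i) with h0 | h0
    · have h1 : x (i + 1) = 0 := by omega
      rw [if_neg (by omega), if_neg (by omega), if_neg (by omega), if_pos h0, if_pos h1]
      ring
    · rcases Nat.eq_zero_or_pos (x (i + 1)) with h1 | h1
      · have hx0 : ¬ x i = 0 := by omega
        rw [if_pos ⟨h0, Or.inl h1⟩, if_pos ⟨h0, Or.inl h1⟩, if_neg hx0, if_pos h1]
        rcases Nat.lt_or_ge 1 (x i) with h2 | h2
        · have hx1 : x (i + 1) + 1 < x i := by omega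
          have hx2 : ¬ x i - 1 = 0 := by omega
          rw [if_pos hx1]
          unfold cw
          rw [if_neg hx2, if_pos h1]
          have : ((x i - 1 : ℕ) : ℚ) = (x i : ℚ) - 1 := by
            rw [Nat.cast_sub h0]; simp
          rw [this]
          push_cast
          ring
        · have h3 : x i = 1 := by omega
          have hx1 : ¬ x (i + 1) + 1 < x i := by omega
          have hx2 : x i - 1 = 0 := by omega
          rw [if_neg hx1]
          unfold cw
          rw [if_pos hx2, h3]
          push_cast
          ring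
      · rcases Nat.lt_or_ge (x (i + 1)) (x i - 1) with h2 | h2
        · rw [if_pos ⟨h0, Or.inr h2⟩, if_pos ⟨h0, Or.inr h2⟩, if_pos (by omega), if_neg (by omega),
            if_neg (by omega)]
          unfold cw
          rw [if_neg (by omega), if_neg (by omega)]
          have : ((x i - 1 : ℕ) : ℚ) = (x i : ℚ) - 1 := by
            rw [Nat.cast_sub h0]; simp
          rw [this]
          push_cast
          ring
        · have h3 : x i = x (i + 1) + 1 := by omega
          rw [if_neg (by omega), if_neg (by omega), if_neg (by omega), if_neg (by omega),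
            if_neg (by omega), h3]
          push_cast
          ring
  rw [Finset.sum_congr rfl (fun i _ => hstep i), Finset.sum_add_distrib]
  have htel : ∑ i ∈ range m, (φ i - φ (i + 1)) = φ 0 - φ m := by
    rw [Finset.sum_range_sub']
  rw [htel]
  have h0 : φ 0 = cw 0 (x 0) := by
    simp only [hφ]
    unfold cw
    split_ifs <;> simp
  have h1 : φ m = 0 := by
    simp only [hφ]
    rw [if_pos hm]
  rw [h0, h1]
  ring

theorem delta_w (m : ℕ) {x : ℕ → ℕ} (h : St x) (hm : x m = 0) :
    Asum ww m x - Bsum ww m x = 1 := by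
  rw [Asum_eq ww m h, Bsum_eq ww m h hm, sub_eq_iff_eq_add]
  have hstep : ∀ i, (if 0 < x i ∧ (x (i + 1) = 0 ∨ x (i + 1) < x i - 1) then ww i (x i - 1) else 0) =
      (if x (i + 1) + 1 < x i then ww (i + 1) (x (i + 1)) else 0) + (ww 0 (x i) - ww 0 (x (i + 1))) := by
    intro i
    have hi := h i
    unfold ww
    rcases Nat.eq_zero_or_pos (x i) with h0 | h0
    · have h1 : x (i + 1) = 0 := by omega
      rw [if_neg (by omega), if_neg (by omega), if_pos h0, if_pos h1]
      ring
    · rcases Nat.eq_zero_or_pos (x (i + 1)) with h1 | h1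
      · rw [if_pos ⟨h0, Or.inl h1⟩]
        rcases Nat.lt_or_ge 1 (x i) with h2 | h2
        · rw [if_neg (by omega), if_pos (by omega), if_pos h1, if_neg (by omega)]
          ring
        · have h3 : x i = 1 := by omega
          rw [if_pos (by omega), if_neg (by omega), if_pos h1, if_neg (by omega)]
          ring
      · rcases Nat.lt_or_ge (x (i + 1)) (x i - 1) with h2 | h2
        · rw [if_pos ⟨h0, Or.inr h2⟩, if_neg (by omega), if_pos (by omega), if_neg (by omega),
            if_neg (by omega)]
          ring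
        · rw [if_neg (by omega), if_neg (by omega), if_neg (by omega), if_neg (by omega)]
          ring
  rw [Finset.sum_congr rfl (fun i _ => hstep i), Finset.sum_add_distrib]
  have htel : ∑ i ∈ range m, (ww 0 (x i) - ww 0 (x (i + 1))) = ww 0 (x 0) - ww 0 (x m) :=
    Finset.sum_range_sub' (fun i => ww 0 (x i)) m
  rw [htel]
  have h1 : ww 0 (x m) = 1 := by
    unfold ww
    rw [if_pos hm]
  rw [h1]
  ring

end Pool.Agent.TH402.Trap
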