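import Mathlib
import Pool.Agent.TH402.Trap.Delta

set_option autoImplicit false

/-!
# The exchange argument
-/

namespace Pool.Agent.TH402.Trap

open Finset
open scoped Classical

/-- support in the first `m` rows -/
def Supp (m : ℕ) (x : ℕ → ℕ) : Prop := ∀ i, m ≤ i → x i = 0

noncomputable def Tsum (g : (ℕ → ℕ) → ℚ) (c : ℕ → ℕ → ℚ) (m : ℕ) (x : ℕ → ℕ) : ℚ :=
  ∑ i ∈ range (m + 1), if St (up x i) then c i (x i) * g (up x i) else 0

theorem exch {x : ℕ → ℕ} (h : St x) {i j : ℕ} (hij : i ≠ j) :
    (St (up x i) ∧ Rem (up x i) j) ↔ (Rem x j ∧ St (up (dn x j) i)) := by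
  have hcomm : dn (up x i) j = up (dn x j) i := by
    unfold dn up
    rw [Function.update_of_ne hij.symm, Function.update_of_ne hij, Function.update_comm hij]
  have hj : up x i j = x j := Function.update_of_ne hij.symm _ _
  unfold Rem
  rw [hcomm, hj]
  constructor
  · rintro ⟨h1, h2, h3⟩
    refine ⟨⟨h2, ?_⟩, h3⟩
    have h4 : Rem x j := by
      rw [Rem_iff h]
      refine ⟨h2, ?_⟩
      have h5 := h3 j
      unfold up dn at h5
      rcases eq_or_ne (j + 1) i with h6 | h6
      · rw [h6, Function.update_self, Function.update_of_ne (by omega),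
          Function.update_of_ne (by omega), Function.update_self] at h5
        rw [h6]
        omega
      · rw [Function.update_of_ne h6, Function.update_of_ne (by omega),
          Function.update_of_ne (by omega), Function.update_self] at h5
        exact h5
    exact h4.2
  · rintro ⟨⟨h1, h2⟩, h3⟩
    refine ⟨?_, h1, h3⟩
    rw [St_up_iff h]
    rcases Nat.eq_zero_or_pos i with h0 | h0
    · exact Or.inl h0
    · right
      have h5 := h3 (i - 1)
      unfold up dn at h5
      rw [show i - 1 + 1 = i by omega, Function.update_self, Function.update_of_ne hij,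
        Function.update_of_ne (by omega)] at h5
      rcases eq_or_ne (i - 1) j with h6 | h6
      · rw [h6, Function.update_self] at h5
        rw [h6]
        omega
      · rw [Function.update_of_ne h6] at h5
        omega

theorem dn_up (x : ℕ → ℕ) (i : ℕ) : dn (up x i) i = x := by
  unfold dn up
  rw [Function.update_self, Function.update_idem, Nat.add_sub_cancel, Function.update_eq_self]

theorem up_dn {x : ℕ → ℕ} {i : ℕ} (h : 0 < x i) : up (dn x i) i = x := by
  unfold dn up
  rw [Function.update_self, Function.update_idem, Nat.sub_add_cancel h, Function.update_eq_self]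

theorem Supp_up {m : ℕ} {x : ℕ → ℕ} (h : Supp m x) {i : ℕ} (hi : i ∈ range (m + 1)) :
    Supp (m + 1) (up x i) := by
  intro k hk
  rw [Finset.mem_range] at hi
  unfold up
  rw [Function.update_of_ne (by omega)]
  exact h k (by omega)

theorem Supp_dn {m : ℕ} {x : ℕ → ℕ} (h : Supp m x) (j : ℕ) : Supp m (dn x j) := by
  intro k hk
  unfold dn
  rcases eq_or_ne k j with h1 | h1
  · rw [h1, Function.update_self, ← h1, h k hk]
  · rw [Function.update_of_ne h1]
    exact h k hk

/-- the recursion satisfied by the number of standard shifted tableaux -/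
def GRec (M : ℕ) (g : (ℕ → ℕ) → ℚ) : Prop :=
  ∀ x, St x → Supp M x → (∃ i, 0 < x i) →
    g x = ∑ j ∈ range M, if Rem x j then g (dn x j) else 0

theorem T_rec (g : (ℕ → ℕ) → ℚ) (c : ℕ → ℕ → ℚ) (m : ℕ) (hg : GRec (m + 1) g) {x : ℕ → ℕ}
    (h : St x) (hs : Supp m x) :
    Tsum g c m x = (Asum c m x - Bsum c m x) * g x +
      ∑ j ∈ range (m + 1), if Rem x j then Tsum g c m (dn x j) else 0 := by
  set P : ℕ → ℕ → ℚ := fun i j => if St (up x i) ∧ Rem (up x i) j then
    c i (x i) * g (dn (up x i) j) else 0 with hP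
  set Q : ℕ → ℕ → ℚ := fun i j => if Rem x j ∧ St (up (dn x j) i) then
    c i (dn x j i) * g (up (dn x j) i) else 0 with hQ
  have h1 : Tsum g c m x = ∑ i ∈ range (m + 1), ∑ j ∈ range (m + 1), P i j := by
    unfold Tsum
    refine Finset.sum_congr rfl fun i hi => ?_
    simp only [hP]
    split_ifs with h2
    · rw [hg (up x i) h2 (Supp_up hs hi) ⟨i, by unfold up; simp⟩, Finset.mul_sum]
      refine Finset.sum_congr rfl fun j _ => ?_
      by_cases h3 : Rem (up x i) j
      · rw [if_pos h3, if_pos ⟨h2, h3⟩]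
      · rw [if_neg h3, if_neg (fun h => h3 h.2), mul_zero]
    · symm
      exact Finset.sum_eq_zero fun j _ => if_neg fun h => h2 h.1
  have h2 : ∑ j ∈ range (m + 1), (if Rem x j then Tsum g c m (dn x j) else 0)
      = ∑ i ∈ range (m + 1), ∑ j ∈ range (m + 1), Q i j := by
    rw [Finset.sum_comm]
    refine Finset.sum_congr rfl fun j _ => ?_
    simp only [hQ]
    split_ifs with h2
    · unfold Tsum
      refine Finset.sum_congr rfl fun i _ => ?_
      by_cases h3 : St (up (dn x j) i)
      · rw [if_pos h3, if_pos ⟨h2, h3⟩]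
      · rw [if_neg h3, if_neg (fun h => h3 h.2)]
    · symm
      exact Finset.sum_eq_zero fun i _ => if_neg fun h => h2 h.1
  have h3 : ∀ i j, i ≠ j → P i j = Q i j := by
    intro i j hij
    simp only [hP, hQ]
    have hcomm : dn (up x i) j = up (dn x j) i := by
      unfold dn up
      rw [Function.update_of_ne hij.symm, Function.update_of_ne hij, Function.update_comm hij]
    have hx : dn x j i = x i := Function.update_of_ne hij _ _
    rw [hcomm, hx]
    simp only [exch h hij]
  have h4 : ∑ i ∈ range (m + 1), ∑ j ∈ range (m + 1), P i j -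
      ∑ i ∈ range (m + 1), ∑ j ∈ range (m + 1), Q i j = (Asum c m x - Bsum c m x) * g x := by
    rw [← Finset.sum_sub_distrib]
    have h5 : ∀ i ∈ range (m + 1), ∑ j ∈ range (m + 1), P i j - ∑ j ∈ range (m + 1), Q i j
        = P i i - Q i i := by
      intro i hi
      rw [← Finset.sum_sub_distrib]
      apply Finset.sum_eq_single_of_mem i hi
      intro j _ hj
      rw [h3 i j hj.symm, sub_self]
    rw [Finset.sum_congr rfl h5]
    unfold Asum Bsum
    rw [← Finset.sum_sub_distrib, Finset.sum_mul]
    refine Finset.sum_congr rfl fun i _ => ?_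
    rw [sub_mul]
    congr 1
    · simp only [hP]
      rw [dn_up]
      by_cases h6 : St (up x i)
      · have h7 : Rem (up x i) i := by
          refine ⟨?_, ?_⟩
          · unfold up; simp
          · rw [dn_up]; exact h
        rw [if_pos h6, if_pos ⟨h6, h7⟩]
      · rw [if_neg h6, if_neg (fun h => h6 h.1), zero_mul]
    · simp only [hQ]
      by_cases h6 : Rem x i
      · have e : dn x i i = x i - 1 := Function.update_self _ _ _
        rw [if_pos h6, up_dn h6.1, if_pos ⟨h6, h⟩, e]
      · rw [if_neg h6, if_neg (fun h => h6 h.1), zero_mul]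
  rw [h1, h2, ← h4]
  ring

theorem sum_dn {m : ℕ} {x : ℕ → ℕ} {j : ℕ} (hj : j ∈ range m) (h : 0 < x j) :
    ∑ i ∈ range m, dn x j i + 1 = ∑ i ∈ range m, x i := by
  rw [← Finset.add_sum_erase _ _ hj, ← Finset.add_sum_erase (range m) x hj]
  have h1 : ∑ i ∈ (range m).erase j, dn x j i = ∑ i ∈ (range m).erase j, x i :=
    Finset.sum_congr rfl fun i hi => Function.update_of_ne (Finset.ne_of_mem_erase hi) _ _
  have h2 : dn x j j = x j - 1 := Function.update_self _ _ _
  rw [h1, h2]
  omega

theorem Rem_mem {m : ℕ} {x : ℕ → ℕ} (hs : Supp m x) {j : ℕ} (h : Rem x j) : j ∈ range m := by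
  rw [Finset.mem_range]
  by_contra hcon
  have := hs j (by omega)
  have := h.1
  omega

theorem ind_supp {m : ℕ} (P : (ℕ → ℕ) → Prop)
    (hstep : ∀ x, St x → Supp m x → (∀ j, Rem x j → P (dn x j)) → P x) :
    ∀ x, St x → Supp m x → P x := by
  have : ∀ N x, ∑ i ∈ range m, x i = N → St x → Supp m x → P x := by
    intro N
    induction N with
    | zero =>
      intro x h1 h2 h3
      refine hstep x h2 h3 fun j hj => ?_
      have h4 := sum_dn (Rem_mem h3 hj) hj.1
      omega
    | succ N ih =>
      intro x h1 h2 h3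
      refine hstep x h2 h3 fun j hj => ?_
      have h4 := sum_dn (Rem_mem h3 hj) hj.1
      exact ih (dn x j) (by omega) hj.2 (Supp_dn h3 j)
  intro x h1 h2
  exact this _ x rfl h1 h2

/-- first relation -/
theorem T_w (g : (ℕ → ℕ) → ℚ) (m : ℕ) (hg : GRec (m + 1) g) :
    ∀ x, St x → Supp m x → Tsum g ww m x = ((∑ i ∈ range m, x i : ℕ) + 1 : ℚ) * g x := by
  apply ind_supp
  intro x h hs ih
  rw [T_rec g ww m hg h hs, delta_w m h (hs m le_rfl)]
  have h1 : ∀ j ∈ range (m + 1), (if Rem x j then Tsum g ww m (dn x j) else 0) =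
      ((∑ i ∈ range m, x i : ℕ) : ℚ) * (if Rem x j then g (dn x j) else 0) := by
    intro j _
    split_ifs with h2
    · rw [ih j h2]
      have h3 := sum_dn (Rem_mem hs h2) h2.1
      rw [← h3]
      push_cast
      ring
    · rw [mul_zero]
  rw [Finset.sum_congr rfl h1, ← Finset.mul_sum]
  by_cases h0 : ∃ i, 0 < x i
  · have hs' : Supp (m + 1) x := fun i hi => hs i (by omega)
    rw [← hg x h hs' h0]
    ring
  · have h2 : ∑ i ∈ range m, x i = 0 := by
      apply Finset.sum_eq_zero
      intro i _
      by_contra h3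
      exact h0 ⟨i, by omega⟩
    rw [h2]
    push_cast
    ring

/-- second relation -/
theorem T_c (g X : (ℕ → ℕ) → ℚ) (m : ℕ) (hg : GRec (m + 1) g)
    (hX : ∀ x, St x → Supp m x →
      X x = Dg m x * g x + ∑ j ∈ range (m + 1), if Rem x j then X (dn x j) else 0) :
    ∀ x, St x → Supp m x → X x = Tsum g cw m x := by
  apply ind_supp
  intro x h hs ih
  rw [T_rec g cw m hg h hs, delta_c m h (hs m le_rfl), hX x h hs]
  congr 1
  refine Finset.sum_congr rfl fun j _ => ?_
  split_ifs with h2
  · rw [ih j h2]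
  · rfl

theorem gp_GRec (M : ℕ) : GRec M (gp M) := by
  intro x h hs hpos
  have hsum : 0 < ∑ i ∈ range M, x i := by
    obtain ⟨i, hi⟩ := hpos
    have hiM : i ∈ range M := by
      rw [Finset.mem_range]
      by_contra hcon
      have := hs i (by omega)
      omega
    exact Finset.sum_pos' (fun _ _ => Nat.zero_le _) ⟨i, hiM, hi⟩
  rw [← gp_rec M h hsum, Finset.sum_filter]
  refine Finset.sum_congr rfl fun j _ => ?_
  by_cases h1 : 0 < x j
  · rw [if_pos h1]
    by_cases h2 : St (dn x j)
    · rw [if_pos ⟨h1, h2⟩]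
    · rw [if_neg (fun h => h2 h.2), gp_dn_zero M h hs h1 h2]
  · rw [if_neg h1, if_neg (fun h => h1 h.1)]

end Pool.Agent.TH402.Trap
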