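import Mathlib
import Pool.Agent.TH402.Trap.Rec

set_option autoImplicit false

/-!
# The uniform distribution
-/

namespace Pool.Agent.TH402.Trap

open Finset
open scoped Classical

/-- extension by zero -/
def ext {m : ℕ} (u : Fin m → ℕ) : ℕ → ℕ := fun i => if h : i < m then u ⟨i, h⟩ else 0

/-- the trapezoid -/
def lam (n m : ℕ) : ℕ → ℕ := fun i => if i < m then n - 2 * i else 0

/-- strict partitions inside the trapezoid -/
noncomputable def Uf (n m : ℕ) : Finset (ℕ → ℕ) :=
  ((univ : Finset (Fin m → Fin (n + 1))).image (fun u => ext (fun i => (u i : ℕ)))).filter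
    (fun x => St x ∧ ∀ i, x i ≤ lam n m i)

theorem mem_Uf {n m : ℕ} {x : ℕ → ℕ} : x ∈ Uf n m ↔ St x ∧ ∀ i, x i ≤ lam n m i := by
  unfold Uf
  rw [Finset.mem_filter, Finset.mem_image]
  constructor
  · exact fun h => h.2
  · intro h
    refine ⟨⟨fun i => ⟨x i, ?_⟩, Finset.mem_univ _, ?_⟩, h⟩
    · have h1 := h.2 i
      unfold lam at h1
      rw [if_pos i.2] at h1
      omega
    · funext i
      unfold ext
      split_ifs with h1
      · rfl
      · have h2 := h.2 i
        unfold lam at h2
        rw [if_neg h1] at h2
        omega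

theorem Uf_St {n m : ℕ} {x : ℕ → ℕ} (h : x ∈ Uf n m) : St x := (mem_Uf.1 h).1

theorem Uf_Supp {n m : ℕ} {x : ℕ → ℕ} (h : x ∈ Uf n m) : Supp m x := by
  intro i hi
  have := (mem_Uf.1 h).2 i
  unfold lam at this
  rw [if_neg (by omega)] at this
  omega

theorem lam_lt {n m i : ℕ} (h : i < m) : lam n m i = n - 2 * i := if_pos h

theorem lam_ge {n m i : ℕ} (h : m ≤ i) : lam n m i = 0 := if_neg (by omega)

/-- counting edges from both ends -/
theorem edges (n m j : ℕ) (c : ℕ → ℕ → ℚ) :
    ∑ x ∈ Uf n m, (if Rem x j then c j (x j - 1) else 0) =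
      ∑ x ∈ Uf n m, (if St (up x j) ∧ x j < lam n m j then c j (x j) else 0) := by
  rw [← Finset.sum_filter, ← Finset.sum_filter]
  refine Finset.sum_bij' (fun x _ => dn x j) (fun x _ => up x j) ?_ ?_ ?_ ?_ ?_
  · intro x hx
    rw [Finset.mem_filter, mem_Uf] at hx ⊢
    obtain ⟨⟨h1, h2⟩, h3⟩ := hx
    have e : dn x j j = x j - 1 := Function.update_self _ _ _
    refine ⟨⟨h3.2, fun i => ?_⟩, ?_, ?_⟩
    · rcases eq_or_ne i j with h | h
      · rw [h, e]
        have := h2 j
        omega
      · rw [show dn x j i = x i from Function.update_of_ne h _ _]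
        exact h2 i
    · rw [up_dn h3.1]
      exact h1
    · rw [e]
      have := h2 j
      have := h3.1
      omega
  · intro x hx
    rw [Finset.mem_filter, mem_Uf] at hx ⊢
    obtain ⟨⟨h1, h2⟩, h3, h4⟩ := hx
    have e : up x j j = x j + 1 := Function.update_self _ _ _
    refine ⟨⟨h3, fun i => ?_⟩, ?_, ?_⟩
    · rcases eq_or_ne i j with h | h
      · rw [h, e]
        omega
      · rw [show up x j i = x i from Function.update_of_ne h _ _]
        exact h2 i
    · rw [e]; omega
    · rw [dn_up]; exact h1
  · intro x hx
    rw [Finset.mem_filter] at hx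
    exact up_dn hx.2.1
  · intro x hx
    exact dn_up x j
  · intro x hx
    rw [show dn x j j = x j - 1 from Function.update_self _ _ _]

/-- the boundary form of the sum of the differences -/
theorem boundary (n m : ℕ) (c : ℕ → ℕ → ℚ) :
    ∑ x ∈ Uf n m, (Asum c m x - Bsum c m x) =
      ∑ i ∈ range (m + 1), ∑ x ∈ Uf n m, if St (up x i) ∧ x i = lam n m i then c i (x i) else 0 := by
  rw [Finset.sum_sub_distrib]
  unfold Asum Bsum
  rw [Finset.sum_comm, Finset.sum_comm (s := Uf n m) (t := range (m + 1))
    (f := fun x j => if Rem x j then c j (x j - 1) else 0), ← Finset.sum_sub_distrib]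
  refine Finset.sum_congr rfl fun i _ => ?_
  rw [edges n m i c, ← Finset.sum_sub_distrib]
  refine Finset.sum_congr rfl fun x hx => ?_
  have h1 := (mem_Uf.1 hx).2 i
  by_cases h2 : St (up x i)
  · rcases Nat.lt_or_eq_of_le h1 with h3 | h3
    · rw [if_pos h2, if_pos ⟨h2, h3⟩, if_neg (fun h => by omega), sub_self]
    · rw [if_pos h2, if_neg (fun h => by omega), if_pos ⟨h2, h3⟩, sub_zero]
  · rw [if_neg h2, if_neg (fun h => h2 h.1), if_neg (fun h => h2 h.1), sub_zero]

/-- the number of elements to which a box in row `m` can be added -/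
noncomputable def S2 (n m : ℕ) : ℚ := ∑ x ∈ Uf n m, if St (up x m) then 1 else 0

theorem unif_D (n m : ℕ) (hm : 2 * m ≤ n + 1) :
    ∑ x ∈ Uf n m, Dg m x = ((n : ℚ) + 1) / 4 * (((Uf n m).card : ℚ) - S2 n m) + (m : ℚ) / 2 * S2 n m := by
  have h1 : ∑ x ∈ Uf n m, Dg m x = ∑ x ∈ Uf n m, (Asum cw m x - Bsum cw m x) :=
    Finset.sum_congr rfl fun x hx => (delta_c m (Uf_St hx) (Uf_Supp hx m le_rfl)).symm
  have h2 : ((Uf n m).card : ℚ) = ∑ x ∈ Uf n m, (Asum ww m x - Bsum ww m x) := by
    rw [Finset.card_eq_sum_ones]
    push_cast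
    exact Finset.sum_congr rfl fun x hx => (delta_w m (Uf_St hx) (Uf_Supp hx m le_rfl)).symm
  have hlast : ∀ c : ℕ → ℕ → ℚ, ∑ x ∈ Uf n m, (if St (up x m) ∧ x m = lam n m m then c m (x m) else 0)
      = c m 0 * S2 n m := by
    intro c
    unfold S2
    rw [Finset.mul_sum]
    refine Finset.sum_congr rfl fun x hx => ?_
    have h3 : x m = 0 := Uf_Supp hx m le_rfl
    have h4 : lam n m m = 0 := lam_ge le_rfl
    rw [h3, h4]
    simp
  rw [boundary, Finset.sum_range_succ, hlast] at h1 h2
  have h5 : ∑ i ∈ range m, ∑ x ∈ Uf n m, (if St (up x i) ∧ x i = lam n m i then cw i (x i) else 0) =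
      ((n : ℚ) + 1) / 4 *
        ∑ i ∈ range m, ∑ x ∈ Uf n m, (if St (up x i) ∧ x i = lam n m i then ww i (x i) else 0) := by
    rw [Finset.mul_sum]
    refine Finset.sum_congr rfl fun i hi => ?_
    rw [Finset.mul_sum]
    refine Finset.sum_congr rfl fun x _ => ?_
    rw [Finset.mem_range] at hi
    split_ifs with h6
    · have h7 : x i = n - 2 * i := by rw [h6.2, lam_lt hi]
      have h8 : ¬ x i = 0 := by omega
      have h9 : (x i : ℚ) = n - 2 * i := by
        rw [h7, Nat.cast_sub (by omega)]
        push_cast
        ring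
      unfold cw ww
      rw [if_neg h8, if_neg h8, h9]
      ring
    · rw [mul_zero]
  rw [h5] at h1
  have hc : cw m 0 = (m : ℚ) / 2 := by unfold cw; rw [if_pos rfl]
  have hw : ww m 0 = 1 := by unfold ww; rw [if_pos rfl]
  rw [hc] at h1
  rw [hw, one_mul] at h2
  rw [h1, h2]
  ring

/-! ### counting -/

theorem no_one (n m : ℕ) :
    ((Uf (n + 1) (m + 1)).filter (fun x => ¬ ∃ i, x i = 1)).card = (Uf n (m + 1)).card := by
  refine Finset.card_bij' (fun x _ => fun i => x i - 1) (fun y _ => fun i => if y i = 0 then 0 else y i + 1)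
    ?_ ?_ ?_ ?_
  · intro x hx
    rw [Finset.mem_filter, mem_Uf] at hx
    obtain ⟨⟨h1, h2⟩, h3⟩ := hx
    rw [mem_Uf]
    refine ⟨fun i => ?_, fun i => ?_⟩
    · try simp only
      have := h1 i
      omega
    · have := h2 i
      unfold lam at this ⊢
      try simp only
      split_ifs with h4
      · rw [if_pos h4] at this; omega
      · rw [if_neg h4] at this; omega
  · intro y hy
    rw [mem_Uf] at hy
    obtain ⟨h1, h2⟩ := hy
    rw [Finset.mem_filter, mem_Uf]
    refine ⟨⟨fun i => ?_, fun i => ?_⟩, ?_⟩
    · try simp only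
      have := h1 i
      split_ifs <;> omega
    · have := h2 i
      unfold lam at this ⊢
      try simp only
      split_ifs with h4 h5 h5
      · omega
      · omega
      · rw [if_pos h5] at this; omega
      · rw [if_neg h5] at this; omega
    · rintro ⟨i, hi⟩
      simp only at hi
      split_ifs at hi with h3
      omega
  · intro x hx
    rw [Finset.mem_filter] at hx
    funext i
    try simp only
    have h3 : x i ≠ 1 := fun h => hx.2 ⟨i, h⟩
    split_ifs <;> omega
  · intro y hy
    funext i
    try simp only
    split_ifs <;> omega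

theorem with_one (n m : ℕ) (hm : 2 * m ≤ n) :
    ((Uf (n + 1) (m + 1)).filter (fun x => ∃ i, x i = 1)).card = (Uf n m).card := by
  refine Finset.card_bij' (fun x _ => fun i => x i - 1)
    (fun y _ => fun i => if y i = 0 then (if i = 0 ∨ y (i - 1) ≠ 0 then 1 else 0) else y i + 1)
    ?_ ?_ ?_ ?_
  · intro x hx
    rw [Finset.mem_filter, mem_Uf] at hx
    obtain ⟨⟨h1, h2⟩, i0, h3⟩ := hx
    rw [mem_Uf]
    refine ⟨fun i => ?_, fun i => ?_⟩
    · try simp only
      have := h1 i
      omega
    · have h5 := h2 i
      try simp only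
      rcases Nat.lt_trichotomy i m with h4 | h4 | h4
      · rw [lam_lt h4]
        rw [lam_lt (by omega)] at h5
        omega
      · rw [lam_ge (by omega)]
        rcases Nat.lt_trichotomy i0 i with h6 | h6 | h6
        · rcases h1.anti h6 with h7 | h7 <;> omega
        · rw [← h6]; omega
        · have h8 := h2 i0
          rw [lam_ge (by omega)] at h8
          omega
      · rw [lam_ge (by omega)]
        rw [lam_ge (by omega)] at h5
        omega
  · intro y hy
    rw [mem_Uf] at hy
    obtain ⟨h1, h2⟩ := hy
    rw [Finset.mem_filter, mem_Uf]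
    refine ⟨⟨fun i => ?_, fun i => ?_⟩, ?_⟩
    · try simp only
      have h3 := h1 i
      have h4 : i + 1 - 1 = i := by omega
      rw [h4]
      by_cases h5 : y (i + 1) = 0
      · rw [if_pos h5]
        by_cases h6 : y i = 0
        · left
          rw [if_neg (by omega)]
        · right
          rw [if_pos (Or.inr h6), if_neg h6]
          omega
      · right
        rw [if_neg h5, if_neg (by omega)]
        omega
    · have h3 := h2 i
      try simp only
      by_cases h5 : y i = 0
      · rw [if_pos h5]
        split_ifs with h6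
        · have h7 : i < m + 1 := by
            rcases h6 with h6 | h6
            · omega
            · by_contra h8
              have h9 := h2 (i - 1)
              rw [lam_ge (by omega)] at h9
              omega
          rw [lam_lt h7]
          omega
        · omega
      · rw [if_neg h5]
        have h7 : i < m := by
          by_contra h8
          rw [lam_ge (by omega)] at h3
          omega
        rw [lam_lt h7] at h3
        rw [lam_lt (by omega)]
        omega
    · have hex : ∃ i, y i = 0 := ⟨m, by
        have := h2 m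
        rw [lam_ge (by omega)] at this
        omega⟩
      refine ⟨Nat.find hex, ?_⟩
      have h3 := Nat.find_spec hex
      try simp only
      rw [if_pos h3, if_pos]
      rcases Nat.eq_zero_or_pos (Nat.find hex) with h4 | h4
      · exact Or.inl h4
      · right
        exact Nat.find_min hex (by omega)
  · intro x hx
    rw [Finset.mem_filter, mem_Uf] at hx
    obtain ⟨⟨h1, h2⟩, i0, h3⟩ := hx
    funext i
    try simp only
    by_cases h4 : x i - 1 = 0
    · rw [if_pos h4]
      rcases Nat.lt_trichotomy i i0 with h5 | h5 | h5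
      · rcases h1.anti h5 with h6 | h6 <;> omega
      · rw [if_pos]
        · rw [h5, h3]
        · rcases Nat.eq_zero_or_pos i with h6 | h6
          · exact Or.inl h6
          · right
            rcases h1.anti (show i - 1 < i by omega) with h7 | h7
            · rw [h5] at h7; omega
            · rw [h5] at h7 ⊢; omega
      · have h8 : x i = 0 := by
          rcases h1.anti h5 with h6 | h6 <;> omega
        rw [if_neg, h8]
        rintro (h9 | h9)
        · omega
        · rcases Nat.lt_or_ge i0 (i - 1) with h10 | h10
          · rcases h1.anti h10 with h6 | h6 <;> omega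
          · have : i - 1 = i0 := by omega
            rw [this, h3] at h9
            exact h9 rfl
    · rw [if_neg h4]
      omega
  · intro y hy
    funext i
    try simp only
    split_ifs <;> omega

theorem card_rec (n m : ℕ) (hm : 2 * m ≤ n) :
    (Uf (n + 1) (m + 1)).card = (Uf n (m + 1)).card + (Uf n m).card := by
  have h := Finset.card_filter_add_card_filter_not (s := Uf (n + 1) (m + 1)) (fun x => ∃ i, x i = 1)
  rw [← no_one n m, ← with_one n m hm, ← h, Nat.add_comm]

theorem card_zero (n : ℕ) : (Uf n 0).card = 1 := by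
  rw [Finset.card_eq_one]
  refine ⟨fun _ => 0, ?_⟩
  ext x
  rw [mem_Uf, Finset.mem_singleton]
  constructor
  · intro h
    funext i
    have := h.2 i
    rw [lam_ge (by omega)] at this
    omega
  · rintro rfl
    exact ⟨fun i => Or.inl rfl, fun i => Nat.zero_le _⟩

theorem card_eq (n m : ℕ) (hm : 2 * m ≤ n + 2) : (Uf n m).card = (n + 1).choose m := by
  induction n generalizing m with
  | zero =>
    have h0 : m = 0 ∨ m = 1 := by omega
    rcases h0 with rfl | rfl
    · rw [card_zero]; simp
    · have : Uf 0 1 = Uf 0 0 := by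
        ext x
        rw [mem_Uf, mem_Uf]
        have : ∀ i, lam 0 1 i = lam 0 0 i := by
          intro i
          unfold lam
          split_ifs <;> omega
        simp only [this]
      rw [this, card_zero]; simp
  | succ n ih =>
    rcases Nat.eq_zero_or_pos m with rfl | hm0
    · rw [card_zero]; simp
    · obtain ⟨k, rfl⟩ : ∃ k, m = k + 1 := ⟨m - 1, by omega⟩
      rcases Nat.lt_or_ge n (2 * k) with h1 | h1
      · -- 2 (k+1) = n + 3
        have h2 : n + 1 = 2 * k := by omega
        have h3 : Uf (n + 1) (k + 1) = Uf (n + 1) k := by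
          ext x
          rw [mem_Uf, mem_Uf]
          have : ∀ i, lam (n + 1) (k + 1) i = lam (n + 1) k i := by
            intro i
            unfold lam
            split_ifs <;> omega
          simp only [this]
        rw [h3]
        obtain ⟨k', rfl⟩ : ∃ k', k = k' + 1 := ⟨k - 1, by omega⟩
        rw [card_rec n k' (by omega), ih (k' + 1) (by omega), ih k' (by omega), h2]
        have h4 : n + 1 + 1 = 2 * (k' + 1) + 1 := by omega
        have h5 : (2 * (k' + 1) + 1).choose (k' + 1 + 1) = (2 * (k' + 1) + 1).choose (k' + 1) := by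
          rw [← Nat.choose_symm (n := 2 * (k' + 1) + 1) (k := k' + 1) (by omega)]
          congr 1
          omega
        rw [h5, Nat.choose_succ_succ]
        ring
      · rw [card_rec n k h1, ih (k + 1) (by omega), ih k (by omega), Nat.choose_succ_succ (n + 1) k]
        ring

theorem S2_eq (n m : ℕ) (hm : 2 * m ≤ n) :
    S2 (n + 1) (m + 1) = ((n + 1).choose (m + 1) : ℚ) - ((n + 1).choose m : ℚ) := by
  unfold S2
  rw [← Finset.sum_filter, Finset.sum_const, nsmul_eq_mul, mul_one]
  have h1 : ((Uf (n + 1) (m + 1)).filter (fun x => St (up x (m + 1)))).card =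
      ((Uf n (m + 1)).filter (fun y => ¬ y m = 0)).card := by
    refine Finset.card_bij' (fun x _ => fun i => x i - 1)
      (fun y _ => fun i => if y i = 0 then 0 else y i + 1) ?_ ?_ ?_ ?_
    · intro x hx
      rw [Finset.mem_filter, mem_Uf] at hx
      obtain ⟨⟨h1, h2⟩, h3⟩ := hx
      rw [St_up_iff h1] at h3
      rw [Finset.mem_filter, mem_Uf]
      refine ⟨⟨fun i => ?_, fun i => ?_⟩, ?_⟩
      · try simp only
        have := h1 i
        omega
      · have := h2 i
        unfold lam at this ⊢
        try simp only
        split_ifs with h4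
        · rw [if_pos h4] at this; omega
        · rw [if_neg h4] at this; omega
      · try simp only
        rcases h3 with h3 | h3
        · omega
        · rw [show m + 1 - 1 = m by omega] at h3
          omega
    · intro y hy
      rw [Finset.mem_filter, mem_Uf] at hy
      obtain ⟨⟨h1, h2⟩, h3⟩ := hy
      rw [Finset.mem_filter, mem_Uf]
      have hSt : St (fun i => if y i = 0 then 0 else y i + 1) := by
        intro i
        try simp only
        have := h1 i
        split_ifs <;> omega
      refine ⟨⟨hSt, fun i => ?_⟩, ?_⟩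
      · have := h2 i
        unfold lam at this ⊢
        try simp only
        split_ifs with h4 h5 h5
        · omega
        · omega
        · rw [if_pos h5] at this; omega
        · rw [if_neg h5] at this; omega
      · rw [St_up_iff hSt]
        right
        try simp only
        rw [show m + 1 - 1 = m by omega, if_neg h3]
        have h4 := h2 (m + 1)
        rw [lam_ge (by omega)] at h4
        rw [if_pos (by omega)]
        omega
    · intro x hx
      rw [Finset.mem_filter, mem_Uf] at hx
      obtain ⟨⟨h1, h2⟩, h3⟩ := hx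
      rw [St_up_iff h1] at h3
      funext i
      try simp only
      have h4 : x i ≠ 1 := by
        intro h5
        rcases h3 with h3 | h3
        · omega
        · rw [show m + 1 - 1 = m by omega] at h3
          rcases Nat.lt_trichotomy i m with h6 | h6 | h6
          · rcases h1.anti h6 with h7 | h7 <;> omega
          · rw [h6] at h5; omega
          · have := h2 i
            rw [lam_ge (by omega)] at this
            omega
      split_ifs <;> omega
    · intro y hy
      funext i
      try simp only
      split_ifs <;> omega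
  have h2 : ((Uf n (m + 1)).filter (fun y => y m = 0)).card = (Uf n m).card := by
    congr 1
    ext y
    rw [Finset.mem_filter, mem_Uf, mem_Uf]
    constructor
    · rintro ⟨⟨h2, h3⟩, h4⟩
      refine ⟨h2, fun i => ?_⟩
      rcases Nat.lt_trichotomy i m with h6 | h6 | h6
      · have := h3 i
        rw [lam_lt (by omega)] at this
        rw [lam_lt h6]
        exact this
      · rw [h6, h4]
        omega
      · have := h3 i
        rw [lam_ge (by omega)] at this
        omega
    · rintro ⟨h2, h3⟩
      refine ⟨⟨h2, fun i => ?_⟩, ?_⟩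
      · have := h3 i
        rcases Nat.lt_or_ge i m with h6 | h6
        · rw [lam_lt h6] at this
          rw [lam_lt (by omega)]
          exact this
        · rw [lam_ge h6] at this
          omega
      · have := h3 m
        rw [lam_ge le_rfl] at this
        omega
  have h3 := Finset.card_filter_add_card_filter_not (s := Uf n (m + 1)) (fun y => y m = 0)
  rw [h2, card_eq n (m + 1) (by omega), card_eq n m (by omega)] at h3
  rw [h1]
  have h4 : (((n + 1).choose m : ℕ) : ℚ) + (((Uf n (m + 1)).filter (fun y => ¬ y m = 0)).card : ℚ)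
      = (((n + 1).choose (m + 1) : ℕ) : ℚ) := by exact_mod_cast h3
  linarith

theorem S2_ratio (n m : ℕ) (hm : 2 * m ≤ n) :
    S2 (n + 1) (m + 1) * ((n : ℚ) + 2) =
      ((Uf (n + 1) (m + 1)).card : ℚ) * ((n : ℚ) + 2 - 2 * ((m : ℚ) + 1)) := by
  rw [S2_eq n m hm, card_eq (n + 1) (m + 1) (by omega), Nat.choose_succ_succ (n + 1) m]
  have h1 := Nat.choose_succ_right_eq (n + 1) m
  have h2 : ((n + 1).choose (m + 1) : ℚ) * (m + 1) = ((n + 1).choose m : ℚ) * ((n : ℚ) + 1 - m) := by
    have h3 : (((n + 1).choose (m + 1) * (m + 1) : ℕ) : ℚ) = (((n + 1).choose m * (n + 1 - m) : ℕ) : ℚ) := by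
      rw [h1]
    rw [Nat.cast_mul, Nat.cast_mul, Nat.cast_sub (by omega)] at h3
    push_cast at h3
    exact h3
  push_cast
  linarith

end Pool.Agent.TH402.Trap
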