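import Mathlib
import Pool.Agent.TH402.Trap.Unif

set_option autoImplicit false

/-!
# The maximal chain distribution
-/

namespace Pool.Agent.TH402.Trap

open Finset
open scoped Classical

/-- the shape after `j` letters -/
def cnt {m L : ℕ} (w : Fin L → Fin m) (j : ℕ) : ℕ → ℕ := fun i =>
  ∑ t : Fin L, if (t : ℕ) < j ∧ ((w t : Fin m) : ℕ) = i then 1 else 0

noncomputable def Wd (m L : ℕ) (x : ℕ → ℕ) : Finset (Fin L → Fin m) :=
  univ.filter (fun w => (∀ j, j ≤ L → St (cnt w j)) ∧ cnt w L = x)

abbrev snoc' {m L : ℕ} (w : Fin L → Fin m) (a : Fin m) : Fin (L + 1) → Fin m :=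
  Fin.snoc (α := fun _ => Fin m) w a

theorem cnt_snoc {m L : ℕ} (w : Fin L → Fin m) (a : Fin m) (j : ℕ) (i : ℕ) :
    cnt (snoc' w a) j i = cnt w j i + (if L < j ∧ (a : ℕ) = i then 1 else 0) := by
  unfold cnt
  rw [Fin.sum_univ_castSucc]
  congr 1
  · refine Finset.sum_congr rfl fun t _ => ?_
    rw [show snoc' w a (Fin.castSucc t) = w t from Fin.snoc_castSucc (α := fun _ => Fin m) _ _ _]
    rfl
  · rw [show snoc' w a (Fin.last L) = a from Fin.snoc_last (α := fun _ => Fin m) _ _]
    rfl

theorem cnt_snoc_le {m L : ℕ} (w : Fin L → Fin m) (a : Fin m) {j : ℕ} (hj : j ≤ L) :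
    cnt (snoc' w a) j = cnt w j := by
  funext i
  rw [cnt_snoc, if_neg (by omega), add_zero]

theorem cnt_snoc_last {m L : ℕ} (w : Fin L → Fin m) (a : Fin m) :
    cnt (snoc' w a) (L + 1) = up (cnt w L) a := by
  have hcnt : ∀ i, cnt w (L + 1) i = cnt w L i := by
    intro i
    unfold cnt
    refine Finset.sum_congr rfl fun t _ => ?_
    have h1 : (t : ℕ) < L := t.2
    have h2 : (t : ℕ) < L + 1 := by omega
    simp only [h1, h2]
  funext i
  rw [cnt_snoc, hcnt]
  unfold up
  rcases eq_or_ne i (a : ℕ) with h | h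
  · rw [h, Function.update_self, if_pos ⟨by omega, rfl⟩]
  · rw [Function.update_of_ne h, if_neg (fun h' => h h'.2.symm), add_zero]

theorem mem_snoc {m L : ℕ} {x : ℕ → ℕ} (h : St x) (w : Fin L → Fin m) (a : Fin m) :
    snoc' w a ∈ Wd m (L + 1) x ↔ Rem x a ∧ w ∈ Wd m L (dn x a) := by
  unfold Wd
  rw [Finset.mem_filter, Finset.mem_filter, cnt_snoc_last]
  constructor
  · rintro ⟨-, h1, h2⟩
    have h3 : dn x a = cnt w L := by rw [← h2, dn_up]
    refine ⟨⟨?_, ?_⟩, Finset.mem_univ _, fun j hj => ?_, h3.symm⟩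
    · rw [← h2]; unfold up; simp
    · rw [h3, ← cnt_snoc_le w a le_rfl]
      exact h1 L (by omega)
    · rw [← cnt_snoc_le w a hj]
      exact h1 j (by omega)
  · rintro ⟨h1, -, h2, h3⟩
    have h4 : up (cnt w L) a = x := by rw [h3, up_dn h1.1]
    refine ⟨Finset.mem_univ _, fun j hj => ?_, h4⟩
    rcases Nat.lt_or_ge L j with h5 | h5
    · have : j = L + 1 := by omega
      rw [this, cnt_snoc_last, h4]
      exact h
    · rw [cnt_snoc_le w a h5]
      exact h2 j h5

theorem sum_Wd {m L : ℕ} {x : ℕ → ℕ} (h : St x) (f : (Fin (L + 1) → Fin m) → ℚ) :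
    ∑ w ∈ Wd m (L + 1) x, f w =
      ∑ a : Fin m, if Rem x a then ∑ w ∈ Wd m L (dn x a), f (snoc' w a) else 0 := by
  have h1 : ∑ w ∈ Wd m (L + 1) x, f w =
      ∑ w : Fin (L + 1) → Fin m, if w ∈ Wd m (L + 1) x then f w else 0 := by
    rw [← Finset.sum_filter]
    congr 1
    ext w
    simp
  rw [h1, ← (Fin.snocEquiv (fun _ : Fin (L + 1) => Fin m)).sum_comp, Fintype.sum_prod_type]
  refine Finset.sum_congr rfl fun a _ => ?_
  have h2 : ∀ w : Fin L → Fin m, (Fin.snocEquiv (fun _ : Fin (L + 1) => Fin m)) (a, w) = snoc' w a :=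
    fun w => rfl
  simp only [h2, mem_snoc h]
  by_cases h3 : Rem x a
  · simp only [h3, true_and, if_true]
    rw [← Finset.sum_filter]
    congr 1
    ext w
    simp
  · simp only [h3, false_and, if_false, Finset.sum_const_zero]

theorem Wd_card_rec {m L : ℕ} {x : ℕ → ℕ} (h : St x) :
    ((Wd m (L + 1) x).card : ℚ) = ∑ a ∈ range m, if Rem x a then ((Wd m L (dn x a)).card : ℚ) else 0 := by
  have h1 := sum_Wd (m := m) (L := L) h (fun _ => 1)
  simp only [Finset.sum_const, nsmul_eq_mul, mul_one] at h1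
  rw [h1, Finset.sum_range]

/-- sum of the number of removable boxes over all words and all times -/
noncomputable def XW (m L : ℕ) (x : ℕ → ℕ) : ℚ :=
  ∑ w ∈ Wd m L x, ∑ j ∈ range (L + 1), Dg m (cnt w j)

theorem XW_rec {m L : ℕ} {x : ℕ → ℕ} (h : St x) :
    XW m (L + 1) x = Dg m x * ((Wd m (L + 1) x).card : ℚ) +
      ∑ a ∈ range m, if Rem x a then XW m L (dn x a) else 0 := by
  have h1 : XW m (L + 1) x = ∑ w ∈ Wd m (L + 1) x, (∑ j ∈ range (L + 1), Dg m (cnt w j)) +
      ∑ w ∈ Wd m (L + 1) x, Dg m x := by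
    unfold XW
    rw [← Finset.sum_add_distrib]
    refine Finset.sum_congr rfl fun w hw => ?_
    rw [Finset.sum_range_succ _ (L + 1)]
    unfold Wd at hw
    rw [Finset.mem_filter] at hw
    rw [hw.2.2]
  rw [h1, sum_Wd h, Finset.sum_const, nsmul_eq_mul, Finset.sum_range, add_comm, mul_comm]
  congr 1
  refine Finset.sum_congr rfl fun a _ => ?_
  split_ifs with h2
  · unfold XW
    refine Finset.sum_congr rfl fun w _ => ?_
    refine Finset.sum_congr rfl fun j hj => ?_
    rw [Finset.mem_range] at hj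
    rw [cnt_snoc_le w a (by omega)]
  · rfl

theorem eq_zero_of_sum {m : ℕ} {x : ℕ → ℕ} (hs : Supp m x) (h : ∑ i ∈ range m, x i = 0) :
    x = fun _ => 0 := by
  funext i
  rcases Nat.lt_or_ge i m with h1 | h1
  · exact (Finset.sum_eq_zero_iff.1 h) i (Finset.mem_range.2 h1)
  · exact hs i h1

theorem cnt_zero {m L : ℕ} (w : Fin L → Fin m) : cnt w 0 = fun _ => 0 := by
  funext i
  unfold cnt
  apply Finset.sum_eq_zero
  intro t _
  rw [if_neg (by omega)]

theorem Wd_zero (m : ℕ) : (Wd m 0 (fun _ => 0)).card = 1 := by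
  have : Wd m 0 (fun _ => 0) = univ := by
    unfold Wd
    rw [Finset.filter_true_of_mem]
    intro w _
    refine ⟨fun j hj => ?_, cnt_zero w⟩
    have : j = 0 := by omega
    rw [this, cnt_zero]
    exact fun i => Or.inl rfl
  rw [this, Finset.card_univ]
  simp

theorem gp_zero (M : ℕ) : gp M (fun _ => 0) = 1 := by
  unfold gp
  have : ∀ i j : ℕ, F i j 0 0 = 1 := by
    intro i j
    unfold F
    rw [rho_zero_right]
    simp
  simp [this]

theorem Dg_zero (m : ℕ) : Dg m (fun _ => 0) = 0 := by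
  unfold Dg
  apply Finset.sum_eq_zero
  intro j _
  rw [if_neg]
  intro h
  exact absurd h.1 (lt_irrefl _)

theorem card_Wd (m : ℕ) : ∀ (L : ℕ) (x : ℕ → ℕ), St x → Supp m x → ∑ i ∈ range m, x i = L →
    ((Wd m L x).card : ℚ) = gp (m + 1) x := by
  intro L
  induction L with
  | zero =>
    intro x _ hs h0
    rw [eq_zero_of_sum hs h0, Wd_zero, gp_zero]
    simp
  | succ L ih =>
    intro x h hs h0
    have hs' : Supp (m + 1) x := fun i hi => hs i (by omega)
    have hpos : ∃ i, 0 < x i := by
      by_contra hcon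
      have : ∑ i ∈ range m, x i = 0 := by
        apply Finset.sum_eq_zero
        intro i _
        by_contra h3
        exact hcon ⟨i, by omega⟩
      omega
    rw [Wd_card_rec h, gp_GRec (m + 1) x h hs' hpos, Finset.sum_range_succ, if_neg, add_zero]
    · refine Finset.sum_congr rfl fun a ha => ?_
      split_ifs with h2
      · have h3 := sum_dn ha h2.1
        exact ih _ h2.2 (Supp_dn hs a) (by omega)
      · rfl
    · intro h2
      have := h2.1
      have := hs m le_rfl
      omega

theorem XW_eq (m : ℕ) (x : ℕ → ℕ) (h : St x) (hs : Supp m x) :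
    XW m (∑ i ∈ range m, x i) x = Tsum (gp (m + 1)) cw m x := by
  refine T_c (gp (m + 1)) (fun x => XW m (∑ i ∈ range m, x i) x) m (gp_GRec (m + 1)) ?_ x h hs
  intro x h hs
  have hlast : ¬ Rem x m := by
    intro h2
    have := h2.1
    have := hs m le_rfl
    omega
  rw [Finset.sum_range_succ, if_neg hlast, add_zero]
  obtain ⟨L, hL⟩ : ∃ L, ∑ i ∈ range m, x i = L := ⟨_, rfl⟩
  rw [hL]
  cases L with
  | zero =>
    have h0 := eq_zero_of_sum hs hL
    subst h0
    have h1 : XW m 0 (fun _ => 0) = 0 := by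
      unfold XW
      apply Finset.sum_eq_zero
      intro w _
      apply Finset.sum_eq_zero
      intro j hj
      rw [Finset.mem_range] at hj
      have : j = 0 := by omega
      rw [this, cnt_zero, Dg_zero]
    rw [h1, Dg_zero, zero_mul, zero_add]
    symm
    apply Finset.sum_eq_zero
    intro j _
    rw [if_neg]
    intro h2
    exact absurd h2.1 (lt_irrefl _)
  | succ L =>
    rw [XW_rec h, card_Wd m (L + 1) x h hs hL]
    congr 1
    refine Finset.sum_congr rfl fun a ha => ?_
    split_ifs with h2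
    · have h3 := sum_dn ha h2.1
      have h4 : ∑ i ∈ range m, dn x a i = L := by omega
      rw [h4]
    · rfl

/-! ### the trapezoid -/

theorem lam_St (n m : ℕ) : St (lam n m) := by
  intro i
  unfold lam
  split_ifs <;> omega

theorem lam_Supp (n m : ℕ) : Supp m (lam n m) := fun _ hi => lam_ge hi

theorem prod_rho (n m : ℕ) (hm : 2 * m ≤ n + 1) :
    (∏ i ∈ range m, rho (n - 2 * i) 1) * ((n : ℚ) + 1) = (n : ℚ) + 1 - 2 * m := by
  induction m with
  | zero => simp
  | succ m ih =>
    have h1 := ih (by omega)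
    rw [Finset.prod_range_succ, mul_right_comm, h1]
    unfold rho
    rw [if_neg (by omega), Nat.cast_sub (by omega)]
    push_cast
    have h2 : (2 * (m : ℚ) + 1) ≤ n := by
      have : 2 * m + 1 ≤ n := by omega
      exact_mod_cast this
    have h3 : (n : ℚ) - 2 * m + 1 ≠ 0 := by linarith
    field_simp
    ring

theorem gp_up_lam (n m : ℕ) (hm : 2 * m ≤ n + 1) :
    gp (m + 1) (up (lam n m) m) * ((n : ℚ) + 1) =
      ((∑ i ∈ range m, lam n m i : ℕ) + 1 : ℚ) * gp (m + 1) (lam n m) * ((n : ℚ) + 1 - 2 * m) := by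
  have hmem : m ∈ range (m + 1) := Finset.mem_range.2 (by omega)
  have h0 : lam n m m = 0 := lam_ge le_rfl
  have hup : up (lam n m) m = Function.update (lam n m) m 1 := by
    unfold up
    rw [h0]
  have herase : (range (m + 1)).erase m = range m := by
    ext i
    rw [Finset.mem_erase, Finset.mem_range, Finset.mem_range]
    omega
  have hne : ∀ i ∈ range m, Function.update (lam n m) m 1 i = lam n m i := by
    intro i hi
    rw [Finset.mem_range] at hi
    exact Function.update_of_ne (by omega) _ _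
  have hs1 : ∑ i ∈ range (m + 1), up (lam n m) m i = ∑ i ∈ range m, lam n m i + 1 := by
    rw [hup, Finset.sum_range_succ, Finset.sum_congr rfl hne, Function.update_self]
  have hs2 : ∑ i ∈ range (m + 1), lam n m i = ∑ i ∈ range m, lam n m i := by
    rw [Finset.sum_range_succ, h0, add_zero]
  have hf : ∏ i ∈ range (m + 1), ((up (lam n m) m i).factorial : ℚ)⁻¹ =
      ∏ i ∈ range (m + 1), ((lam n m i).factorial : ℚ)⁻¹ := by
    rw [hup, Finset.prod_range_succ, Finset.prod_range_succ, Function.update_self, h0]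
    congr 1
    refine Finset.prod_congr rfl fun i hi => ?_
    rw [hne i hi]
  have hF1 : ∏ i ∈ range m, (F i m (lam n m i) 1 * F m i 1 (lam n m i)) =
      ∏ i ∈ range m, rho (n - 2 * i) 1 := by
    refine Finset.prod_congr rfl fun i hi => ?_
    rw [Finset.mem_range] at hi
    unfold F
    rw [if_pos hi, if_neg (by omega), lam_lt hi, mul_one]
  have hF0 : ∏ i ∈ range m, (F i m (lam n m i) (lam n m m) * F m i (lam n m m) (lam n m i)) = 1 := by
    apply Finset.prod_eq_one
    intro i hi
    rw [Finset.mem_range] at hi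
    unfold F
    rw [if_pos hi, if_neg (by omega), h0, rho_zero_right, mul_one]
  have hp1 := prod_split (range (m + 1)) m hmem (lam n m) 1
  have hp2 := prod_self (range (m + 1)) m hmem (lam n m)
  rw [herase, ← hup, hF1] at hp1
  rw [herase, hF0, mul_one] at hp2
  unfold gp
  rw [hs1, hs2, hf, hp1, hp2, Nat.factorial_succ]
  have h5 := prod_rho n m hm
  push_cast
  rw [← h5]
  ring

theorem chain_D (n m : ℕ) (hm0 : 1 ≤ m) (hm : 2 * m ≤ n + 1) (N : ℕ)
    (hN : N = ∑ i ∈ range m, lam n m i) :
    XW m N (lam n m) = ((n : ℚ) + 1) / 4 * (((N : ℚ) + 1) * ((Wd m N (lam n m)).card : ℚ)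
      - gp (m + 1) (up (lam n m) m)) + (m : ℚ) / 2 * gp (m + 1) (up (lam n m) m) := by
  subst hN
  have hS := lam_St n m
  have hs := lam_Supp n m
  rw [XW_eq m _ hS hs, card_Wd m _ _ hS hs rfl]
  have hw := T_w (gp (m + 1)) m (gp_GRec (m + 1)) _ hS hs
  rw [← hw]
  have hlast : (if St (up (lam n m) m) then gp (m + 1) (up (lam n m) m) else 0) =
      gp (m + 1) (up (lam n m) m) := by
    split_ifs with h1
    · rfl
    · rw [St_up_iff hS] at h1
      have h2 : lam n m m = 0 := lam_ge le_rfl
      have h3 : lam n m (m - 1) = n - 2 * (m - 1) := lam_lt (by omega)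
      rw [h2, h3] at h1
      have h4 : n + 1 = 2 * m := by omega
      have h5 := gp_up_lam n m hm
      have h6 : (n : ℚ) + 1 - 2 * m = 0 := by
        have : (n : ℚ) + 1 = 2 * m := by exact_mod_cast h4
        linarith
      rw [h6, mul_zero] at h5
      rcases mul_eq_zero.1 h5 with h7 | h7
      · exact h7.symm
      · exfalso
        have : (0 : ℚ) < (n : ℚ) + 1 := by positivity
        linarith
  have h0 : lam n m m = 0 := lam_ge le_rfl
  have e1 : Tsum (gp (m + 1)) cw m (lam n m) = ((n : ℚ) + 1) / 2 *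
      (∑ i ∈ range m, if St (up (lam n m) i) then gp (m + 1) (up (lam n m) i) else 0) +
      (m : ℚ) / 2 * gp (m + 1) (up (lam n m) m) := by
    unfold Tsum
    rw [Finset.sum_range_succ, Finset.mul_sum]
    congr 1
    · refine Finset.sum_congr rfl fun i hi => ?_
      rw [Finset.mem_range] at hi
      split_ifs with h1
      · congr 1
        unfold cw
        rw [lam_lt hi, if_neg (by omega), Nat.cast_sub (by omega)]
        push_cast
        ring
      · rw [mul_zero]
    · rw [h0, show cw m 0 = (m : ℚ) / 2 by unfold cw; rw [if_pos rfl], ← mul_ite_zero, hlast]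
  have e2 : Tsum (gp (m + 1)) ww m (lam n m) = 2 *
      (∑ i ∈ range m, if St (up (lam n m) i) then gp (m + 1) (up (lam n m) i) else 0) +
      gp (m + 1) (up (lam n m) m) := by
    unfold Tsum
    rw [Finset.sum_range_succ, Finset.mul_sum]
    congr 1
    · refine Finset.sum_congr rfl fun i hi => ?_
      rw [Finset.mem_range] at hi
      split_ifs with h1
      · congr 1
        unfold ww
        rw [lam_lt hi, if_neg (by omega)]
      · rw [mul_zero]
    · rw [h0, show ww m 0 = 1 by unfold ww; rw [if_pos rfl], one_mul, hlast]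
  rw [e1, e2]
  ring

end Pool.Agent.TH402.Trap
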